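import Pool.Agent.D0H95.BF.Stm4

/-!
Module CIR2: quasi-periodic solutions of the circular problem and the exponents.
-/

set_option autoImplicit false

open Filter Topology Set

namespace Pool.Agent.D0H65.BF

open Pool.Agent.D0H95.BF

/-- The linear combinations of the four functions. -/
noncomputable def Phi (X X' Y Y' : ℝ → ℂ) : (Fin 4 → ℂ) →ₗ[ℂ] (ℝ → ℂ) where
  toFun a := fun u => a 0 * X u + a 1 * X' u + a 2 * Y u + a 3 * Y' u
  map_add' a b := by
    funext u
    simp only [Pi.add_apply]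
    ring
  map_smul' c a := by
    funext u
    simp only [Pi.smul_apply, smul_eq_mul, RingHom.id_apply]
    ring

/-- The derivative on the coefficients. -/
noncomputable def MM (κ : ℝ) : (Fin 4 → ℂ) →ₗ[ℂ] (Fin 4 → ℂ) where
  toFun a := ![3 / 2 * a 1 + κ * a 3, a 0 - 2 * Complex.I * a 1, κ * a 1 + 3 / 2 * a 3,
    a 2 + 2 * Complex.I * a 3]
  map_add' a b := by
    funext i
    fin_cases i <;> simp <;> ring
  map_smul' c a := by
    funext i
    fin_cases i <;> simp <;> ring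

theorem MM_char (κ : ℝ) (a : Fin 4 → ℂ) :
    MM κ (MM κ (MM κ (MM κ a))) + MM κ (MM κ a) + ((9 / 4 - κ ^ 2 : ℝ) : ℂ) • a = 0 := by
  have hI : Complex.I ^ 2 = -1 := Complex.I_sq
  have hI3 : Complex.I ^ 3 = -Complex.I := by rw [pow_succ, hI]; ring
  have hI4 : Complex.I ^ 4 = 1 := by rw [Complex.I_pow_four]
  funext i
  fin_cases i <;> simp [MM] <;> ring_nf <;> simp only [hI, hI3, hI4] <;> ring

/-- A complex exponent for each quasi-periodic solution. -/
theorem exists_l (κ α : ℝ) (h : CS κ α) : ∃ l : ℂ, l ^ 4 - l ^ 2 + ((9 / 4 - κ ^ 2 : ℝ) : ℂ) = 0 ∧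
    Complex.cos (2 * Real.pi * l) = ((Real.cos α : ℝ) : ℂ) := by
  obtain ⟨X, X', Y, Y', h, u₀, hne⟩ := h
  have hX := fun u => (h u).1
  have hY := fun u => (h u).2.1
  have hX' := fun u => (h u).2.2.1
  have hY' := fun u => (h u).2.2.2.1
  have pX := fun u => (h u).2.2.2.2.1
  have pY := fun u => (h u).2.2.2.2.2
  have shift : ∀ (f f' : ℝ → ℂ), (∀ u, HasDerivAt f (f' u) u) →
      (∀ u, f (u + 2 * Real.pi) = Complex.exp (α * Complex.I) * f u) →
      ∀ u, f' (u + 2 * Real.pi) = Complex.exp (α * Complex.I) * f' u := by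
    intro f f' hf hp u
    have h1 : HasDerivAt (fun u => f (u + 2 * Real.pi)) (f' (u + 2 * Real.pi)) u :=
      (hf (u + 2 * Real.pi)).comp_add_const u (2 * Real.pi)
    have h2 : HasDerivAt (fun u => Complex.exp (α * Complex.I) * f u)
        (Complex.exp (α * Complex.I) * f' u) u := (hf u).const_mul _
    have h3 : (fun u => f (u + 2 * Real.pi)) = fun u => Complex.exp (α * Complex.I) * f u :=
      funext hp
    rw [h3] at h1
    exact h1.unique h2
  have pX' := shift X X' hX pX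
  have pY' := shift Y Y' hY pY
  set Φ := Phi X X' Y Y' with hΦ
  have hper : ∀ a u, Φ a (u + 2 * Real.pi) = Complex.exp (α * Complex.I) * Φ a u := by
    intro a u
    change a 0 * X (u + 2 * Real.pi) + a 1 * X' (u + 2 * Real.pi) + a 2 * Y (u + 2 * Real.pi) +
      a 3 * Y' (u + 2 * Real.pi) =
      Complex.exp (α * Complex.I) * (a 0 * X u + a 1 * X' u + a 2 * Y u + a 3 * Y' u)
    rw [pX, pY, pX', pY']
    ring
  have hder : ∀ a u, HasDerivAt (Φ a) (Φ (MM κ a) u) u := by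
    intro a u
    have h1 := ((((hX u).const_mul (a 0)).add ((hX' u).const_mul (a 1))).add
      ((hY u).const_mul (a 2))).add ((hY' u).const_mul (a 3))
    have h2 : HasDerivAt (Φ a) (a 0 * X' u + a 1 * (3 / 2 * X u + κ * Y u - 2 * Complex.I * X' u) +
        a 2 * Y' u + a 3 * (3 / 2 * Y u + κ * X u + 2 * Complex.I * Y' u)) u := h1
    have h3 : Φ (MM κ a) u = a 0 * X' u + a 1 * (3 / 2 * X u + κ * Y u - 2 * Complex.I * X' u) +
        a 2 * Y' u + a 3 * (3 / 2 * Y u + κ * X u + 2 * Complex.I * Y' u) := by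
      change (3 / 2 * a 1 + κ * a 3) * X u + (a 0 - 2 * Complex.I * a 1) * X' u +
        (κ * a 1 + 3 / 2 * a 3) * Y u + (a 2 + 2 * Complex.I * a 3) * Y' u = _
      ring
    rw [h3]
    exact h2
  set W := LinearMap.ker Φ with hW
  have hinv : ∀ a ∈ W, MM κ a ∈ W := by
    intro a ha
    rw [LinearMap.mem_ker] at ha ⊢
    funext u
    have h1 := hder a u
    rw [ha] at h1
    exact h1.unique (hasDerivAt_const u (0 : ℂ))
  have hWne : W ≠ ⊤ := by
    intro htop
    have h1 : ∀ a, Φ a = 0 := fun a => by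
      have : a ∈ W := by rw [htop]; exact Submodule.mem_top
      exact LinearMap.mem_ker.1 this
    rcases hne with h2 | h2
    · apply h2
      have h3 := congrFun (h1 ![1, 0, 0, 0]) u₀
      change (1 : ℂ) * X u₀ + 0 * X' u₀ + 0 * Y u₀ + 0 * Y' u₀ = 0 at h3
      simpa using h3
    · apply h2
      have h3 := congrFun (h1 ![0, 0, 1, 0]) u₀
      change (0 : ℂ) * X u₀ + 0 * X' u₀ + 1 * Y u₀ + 0 * Y' u₀ = 0 at h3
      simpa using h3
  have hle : W ≤ W.comap (MM κ) := fun a ha => hinv a ha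
  have : Nontrivial ((Fin 4 → ℂ) ⧸ W) := Submodule.Quotient.nontrivial_iff.2 hWne
  obtain ⟨μ, hμ⟩ := Module.End.exists_eigenvalue (W.mapQ W (MM κ) hle)
  obtain ⟨v, hv⟩ := hμ.exists_hasEigenvector
  obtain ⟨a, rfl⟩ := Submodule.Quotient.mk_surjective W v
  have haW : a ∉ W := fun h1 => hv.2 ((Submodule.Quotient.mk_eq_zero W).2 h1)
  have hMa : MM κ a - μ • a ∈ W := by
    have h1 := hv.apply_eq_smul
    rw [Submodule.mapQ_apply] at h1
    have h2 : (Submodule.Quotient.mk (MM κ a) : (Fin 4 → ℂ) ⧸ W) = Submodule.Quotient.mk (μ • a) := by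
      rw [h1, Submodule.Quotient.mk_smul]
    exact (Submodule.Quotient.eq W).1 h2
  have hpow : ∀ b : Fin 4 → ℂ, (∃ c : ℂ, b - c • a ∈ W) → ∀ c : ℂ, b - c • a ∈ W →
      MM κ b - (c * μ) • a ∈ W := by
    intro b _ c hc
    have h1 := hinv _ hc
    rw [map_sub, map_smul] at h1
    have h2 := W.add_mem h1 (W.smul_mem c hMa)
    have h3 : MM κ b - c • MM κ a + c • (MM κ a - μ • a) = MM κ b - (c * μ) • a := by
      rw [smul_sub, smul_smul]
      abel
    rwa [h3] at h2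
  have h1 : MM κ a - μ • a ∈ W := hMa
  have h2 : MM κ (MM κ a) - (μ * μ) • a ∈ W := hpow _ ⟨_, h1⟩ _ h1
  have h3 : MM κ (MM κ (MM κ a)) - (μ * μ * μ) • a ∈ W := hpow _ ⟨_, h2⟩ _ h2
  have h4 : MM κ (MM κ (MM κ (MM κ a))) - (μ * μ * μ * μ) • a ∈ W := hpow _ ⟨_, h3⟩ _ h3
  have hq : (μ * μ * μ * μ + μ * μ + ((9 / 4 - κ ^ 2 : ℝ) : ℂ)) • a ∈ W := by
    have h5 := W.add_mem h4 h2
    have h6 : MM κ (MM κ (MM κ (MM κ a))) - (μ * μ * μ * μ) • a + (MM κ (MM κ a) - (μ * μ) • a) =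
        -((μ * μ * μ * μ + μ * μ + ((9 / 4 - κ ^ 2 : ℝ) : ℂ)) • a) := by
      have h7 := MM_char κ a
      rw [add_smul, add_smul]
      have h8 : MM κ (MM κ (MM κ (MM κ a))) + MM κ (MM κ a) = -(((9 / 4 - κ ^ 2 : ℝ) : ℂ) • a) :=
        eq_neg_of_add_eq_zero_left h7
      calc MM κ (MM κ (MM κ (MM κ a))) - (μ * μ * μ * μ) • a + (MM κ (MM κ a) - (μ * μ) • a)
          = (MM κ (MM κ (MM κ (MM κ a))) + MM κ (MM κ a)) - (μ * μ * μ * μ) • a - (μ * μ) • a := by
            abel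
        _ = _ := by rw [h8]; abel
    rw [h6] at h5
    exact (Submodule.neg_mem_iff W).1 h5
  have hq0 : μ * μ * μ * μ + μ * μ + ((9 / 4 - κ ^ 2 : ℝ) : ℂ) = 0 := by
    by_contra hne'
    apply haW
    have := W.smul_mem (μ * μ * μ * μ + μ * μ + ((9 / 4 - κ ^ 2 : ℝ) : ℂ))⁻¹ hq
    rwa [inv_smul_smul₀ hne'] at this
  -- the exponential solution
  set g : ℝ → ℂ := Φ a with hg
  have hg' : ∀ u, HasDerivAt g (μ * g u) u := by
    intro u
    have e1 := hder a u
    have e2 : Φ (MM κ a) = Φ (μ • a) := by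
      have := LinearMap.mem_ker.1 hMa
      rw [map_sub, sub_eq_zero] at this
      exact this
    rw [e2, map_smul] at e1
    exact e1
  have hconst : ∀ u, g u * Complex.exp (-(μ * u)) = g 0 := by
    have hd : ∀ u : ℝ, HasDerivAt (fun u : ℝ => g u * Complex.exp (-(μ * u))) 0 u := by
      intro u
      have e1 : HasDerivAt (fun u : ℝ => -(μ * (u : ℂ))) (-μ) u := by
        have e0 : HasDerivAt (fun u : ℝ => (u : ℂ)) 1 u := Complex.ofRealCLM.hasDerivAt
        have e00 := (e0.const_mul μ).neg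
        rw [mul_one] at e00
        exact e00
      have e2 := (hg' u).mul e1.cexp
      have e3 : μ * g u * Complex.exp (-(μ * u)) + g u * (Complex.exp (-(μ * u)) * -μ) = 0 := by
        ring
      rw [e3] at e2
      exact e2
    intro u
    have e4 := is_const_of_deriv_eq_zero (fun u => (hd u).differentiableAt)
      (fun u => (hd u).deriv) u 0
    simp only [Complex.ofReal_zero, mul_zero, neg_zero, Complex.exp_zero, mul_one] at e4
    exact e4
  have hgu : ∀ u, g u = g 0 * Complex.exp (μ * u) := by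
    intro u
    rw [← hconst u, mul_assoc, ← Complex.exp_add]
    simp
  have hg0 : g 0 ≠ 0 := by
    intro h0
    apply haW
    rw [LinearMap.mem_ker]
    funext u
    change g u = 0
    rw [hgu, h0, zero_mul]
  have hexp : Complex.exp (μ * (2 * Real.pi)) = Complex.exp (α * Complex.I) := by
    have e1 := hper a 0
    change g (0 + 2 * Real.pi) = Complex.exp (α * Complex.I) * g 0 at e1
    rw [hgu, zero_add] at e1
    have e2 : g 0 * Complex.exp (μ * ((2 * Real.pi : ℝ) : ℂ)) = g 0 * Complex.exp (α * Complex.I) := by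
      rw [e1, mul_comm]
    have e3 := mul_left_cancel₀ hg0 e2
    rw [← e3]
    push_cast
    rfl
  refine ⟨-Complex.I * μ, ?_, ?_⟩
  · have hI : Complex.I ^ 2 = -1 := Complex.I_sq
    have e1 : (-Complex.I * μ) ^ 4 - (-Complex.I * μ) ^ 2 =
        (Complex.I ^ 2) ^ 2 * (μ * μ * μ * μ) - Complex.I ^ 2 * (μ * μ) := by ring
    rw [e1, hI]
    linear_combination hq0
  · rw [Complex.ofReal_cos, Complex.cos, Complex.cos]
    have e1 : 2 * (Real.pi : ℂ) * (-Complex.I * μ) * Complex.I = μ * (2 * Real.pi) := by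
      have hI : Complex.I * Complex.I = -1 := Complex.I_mul_I
      linear_combination (-(2 * (Real.pi : ℂ) * μ)) * hI
    have e2 : -(2 * (Real.pi : ℂ) * (-Complex.I * μ)) * Complex.I = -(μ * (2 * Real.pi)) := by
      rw [neg_mul, e1]
    rw [e1, e2, Complex.exp_neg, hexp]
    have e3 : -(α : ℂ) * Complex.I = -(α * Complex.I) := by ring
    rw [e3, Complex.exp_neg]

/-- Module CIR2. -/
theorem t_CIR2 : S_CIR2 := by
  intro κ α₁ α₂ hκ hs1 hs2 hcos h1 h2
  obtain ⟨z₁, hz1, hc1⟩ := exists_l κ α₁ h1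
  obtain ⟨z₂, hz2, hc2⟩ := exists_l κ α₂ h2
  set c : ℝ := 9 / 4 - κ ^ 2 with hc
  have hc0 : 0 < c := by rw [hc]; linarith
  have hcosne : ∀ w : ℂ, w ^ 2 = z₁ ^ 2 → Complex.cos (2 * Real.pi * w) = Complex.cos (2 * Real.pi * z₁) := by
    intro w hw
    rcases sq_eq_sq_iff_eq_or_eq_neg.1 hw with rfl | rfl
    · rfl
    · rw [mul_neg, Complex.cos_neg]
  have hcosne2 : ∀ w : ℂ, w ^ 2 = z₂ ^ 2 → Complex.cos (2 * Real.pi * w) = Complex.cos (2 * Real.pi * z₂) := by
    intro w hw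
    rcases sq_eq_sq_iff_eq_or_eq_neg.1 hw with rfl | rfl
    · rfl
    · rw [mul_neg, Complex.cos_neg]
  obtain ⟨t₁, ht1⟩ : ∃ t : ℂ, t = z₁ ^ 2 := ⟨_, rfl⟩
  obtain ⟨t₂, ht2⟩ : ∃ t : ℂ, t = z₂ ^ 2 := ⟨_, rfl⟩
  have hq1 : t₁ ^ 2 - t₁ + c = 0 := by rw [ht1]; linear_combination hz1
  have hq2 : t₂ ^ 2 - t₂ + c = 0 := by rw [ht2]; linear_combination hz2
  have hne : t₁ ≠ t₂ := by
    intro he
    apply hcos
    have := hcosne z₂ (by rw [← ht2, ← he, ht1])
    rw [hc1, hc2] at this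
    exact_mod_cast this.symm
  have hsum : t₁ + t₂ = 1 := by
    have e1 : (t₁ - t₂) * (t₁ + t₂ - 1) = 0 := by linear_combination hq1 - hq2
    rcases mul_eq_zero.1 e1 with e2 | e2
    · exact absurd (sub_eq_zero.1 e2) hne
    · exact sub_eq_zero.1 e2
  -- the imaginary part vanishes
  have him : t₁.im = 0 := by
    by_contra him
    have e1 := congrArg Complex.im hq1
    simp only [Complex.add_im, Complex.sub_im, Complex.ofReal_im, Complex.zero_im, pow_two,
      Complex.mul_im] at e1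
    have e2 : t₁.im * (2 * t₁.re - 1) = 0 := by linear_combination e1
    have e3 : 2 * t₁.re - 1 = 0 := (mul_eq_zero.1 e2).resolve_left him
    have e4 : t₂ = (starRingEnd ℂ) t₁ := by
      have e5 : t₂ = 1 - t₁ := by linear_combination hsum
      rw [e5]
      apply Complex.ext
      · simp
        linarith
      · simp
    have e6 : ((starRingEnd ℂ) z₁) ^ 2 = z₂ ^ 2 := by
      rw [← map_pow, ← ht1, ← ht2, e4]
    have e7 := hcosne2 _ e6
    have e8 : Complex.cos (2 * Real.pi * (starRingEnd ℂ) z₁) =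
        (starRingEnd ℂ) (Complex.cos (2 * Real.pi * z₁)) := by
      rw [← Complex.cos_conj]
      congr 1
      rw [map_mul, map_mul, Complex.conj_ofReal]
      congr 2
      exact (Complex.conj_ofReal 2).symm
    rw [e8, hc1, hc2, Complex.conj_ofReal] at e7
    exact hcos (by exact_mod_cast e7)
  have ht1r : t₁ = ((t₁.re : ℝ) : ℂ) := Complex.ext (by simp) (by simp [him])
  obtain ⟨r₁, hr1⟩ : ∃ r : ℝ, r = t₁.re := ⟨_, rfl⟩
  rw [← hr1] at ht1r
  have ht2r : t₂ = ((1 - r₁ : ℝ) : ℂ) := by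
    push_cast
    linear_combination hsum - ht1r
  have hr : r₁ ^ 2 - r₁ + c = 0 := by
    rw [ht1r] at hq1
    exact_mod_cast hq1
  have hr0 : 0 < r₁ := by nlinarith
  have hr1' : r₁ < 1 := by nlinarith
  have hr2 : r₁ ≠ 1 / 2 := by
    intro he
    apply hne
    rw [ht1r, ht2r, he]
    norm_num
  have hroot : ∀ (r : ℝ) (z : ℂ) (α : ℝ), 0 < r → z ^ 2 = (r : ℂ) →
      Complex.cos (2 * Real.pi * z) = ((Real.cos α : ℝ) : ℂ) →
      Real.cos α = Real.cos (2 * Real.pi * √r) := by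
    intro r z α hr hz hcz
    have e1 : ((√r : ℝ) : ℂ) ^ 2 = z ^ 2 := by
      rw [hz]
      exact_mod_cast Real.sq_sqrt hr.le
    have e2 : Complex.cos (2 * Real.pi * ((√r : ℝ) : ℂ)) = Complex.cos (2 * Real.pi * z) := by
      rcases sq_eq_sq_iff_eq_or_eq_neg.1 e1 with e3 | e3
      · rw [e3]
      · rw [e3, mul_neg, Complex.cos_neg]
    rw [hcz] at e2
    have e4 : ((Real.cos (2 * Real.pi * √r) : ℝ) : ℂ) = ((Real.cos α : ℝ) : ℂ) := by
      rw [← e2, Complex.ofReal_cos]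
      push_cast
      rfl
    exact_mod_cast e4.symm
  have hA := hroot r₁ z₁ α₁ hr0 (by rw [← ht1, ht1r]) hc1
  have hB := hroot (1 - r₁) z₂ α₂ (by linarith) (by rw [← ht2, ht2r]) hc2
  have hquarter : ∀ (r α : ℝ), 0 < r → Real.sin α ≠ 0 → Real.cos α = Real.cos (2 * Real.pi * √r) →
      4 * (√r) ^ 2 ≠ 1 := by
    intro r α hr hs hcr he
    have e1 : √r = 1 / 2 := by
      have e2 : 0 ≤ √r := Real.sqrt_nonneg r
      nlinarith
    rw [e1] at hcr
    have e3 : 2 * Real.pi * (1 / 2) = Real.pi := by ring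
    rw [e3, Real.cos_pi] at hcr
    apply hs
    have e4 := Real.sin_sq_add_cos_sq α
    rw [hcr] at e4
    have e5 : Real.sin α ^ 2 = 0 := by linarith
    exact pow_eq_zero_iff (by norm_num) |>.1 e5
  have hs1' : (√r₁) ^ 2 = r₁ := Real.sq_sqrt hr0.le
  have hs2' : (√(1 - r₁)) ^ 2 = 1 - r₁ := Real.sq_sqrt (by linarith)
  have h4 : ∀ x : ℝ, x ^ 4 = (x ^ 2) ^ 2 := fun x => by ring
  refine ⟨√r₁, √(1 - r₁), Real.sqrt_pos.2 hr0, ?_, Real.sqrt_pos.2 (by linarith), ?_,
    hquarter _ _ hr0 hs1 hA, hquarter _ _ (by linarith) hs2 hB, ?_, ?_, ?_, ?_, ?_, hA, hB⟩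
  · rw [Real.sqrt_lt' one_pos]
    linarith
  · rw [Real.sqrt_lt' one_pos]
    linarith
  · rw [hs1']
    intro he
    exact hr2 (by linarith)
  · rw [hs2']
    intro he
    exact hr2 (by linarith)
  · rw [hs1', hs2']
    ring
  · rw [h4, hs1']
    rw [hc] at hr
    linarith
  · rw [h4, hs2']
    rw [hc] at hr
    nlinarith

end Pool.Agent.D0H65.BF
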