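import Pool.Agent.D0H95.BF.Stm3

/-!
Module TAY: second order Taylor expansion and the derivative.
-/

set_option autoImplicit false

open Filter Topology Set

namespace Pool.Agent.D0H65.BF

open Pool.Agent.D0H95.BF

/-- Module TAY. -/
theorem t_TAY : S_TAY := by
  intro α c C hα hc hT
  -- differentiability near zero
  have hdiff : ∀ᶠ e in 𝓝 (0:ℝ), DifferentiableAt ℝ α e := by
    have := hα.eventually (by simp)
    filter_upwards [this] with e he
    exact he.differentiableAt (by norm_num)
  have hf1 : ContDiffAt ℝ 1 (fderiv ℝ α) 0 := hα.fderiv_right (by norm_num)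
  have hd1 : DifferentiableAt ℝ (deriv α) 0 := by
    have h1 : DifferentiableAt ℝ (fderiv ℝ α) 0 := hf1.differentiableAt (by norm_num)
    have h2 : deriv α = fun x => fderiv ℝ α x 1 := by
      funext x; exact (fderiv_apply_one_eq_deriv).symm
    rw [h2]
    exact h1.clm_apply (differentiableAt_const _)
  have hg := hd1.hasDerivAt
  have h0 : HasDerivAt α (deriv α 0) 0 := hdiff.self_of_nhds.hasDerivAt
  -- the expansion
  obtain ⟨δ1, hδ1, hT1⟩ := Metric.eventually_nhds_iff.1 hT
  obtain ⟨δ2, hδ2, hD⟩ := Metric.eventually_nhds_iff.1 hdiff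
  have hg0 : deriv α 0 = 0 := by
    have h1 : HasDerivAt α 0 0 := by
      rw [hasDerivAt_iff_isLittleO]
      have hO : (fun e : ℝ => α e - α 0) =O[𝓝 0] fun e : ℝ => e ^ 2 := by
        refine Asymptotics.IsBigO.of_bound (|c| + |C|) ?_
        filter_upwards [hT, Metric.ball_mem_nhds (0:ℝ) one_pos] with e he he1
        rw [Metric.mem_ball, dist_zero_right, Real.norm_eq_abs] at he1
        rw [Real.norm_eq_abs, Real.norm_eq_abs]
        have h3 : |α e - α 0| ≤ |α e - α 0 - c * e ^ 2| + |c * e ^ 2| := by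
          have := abs_add_le (α e - α 0 - c * e ^ 2) (c * e ^ 2)
          simpa using this
        have h4 : |c * e ^ 2| = |c| * |e ^ 2| := abs_mul _ _
        have h5 : C * |e| ^ 3 ≤ |C| * |e ^ 2| := by
          rw [abs_pow]
          have : |e| ^ 3 ≤ |e| ^ 2 := pow_le_pow_of_le_one (abs_nonneg _) he1.le (by norm_num)
          calc C * |e| ^ 3 ≤ |C| * |e| ^ 3 := by
                exact mul_le_mul_of_nonneg_right (le_abs_self _) (by positivity)
            _ ≤ |C| * |e| ^ 2 := mul_le_mul_of_nonneg_left this (abs_nonneg _)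
        nlinarith
      have ho : (fun e : ℝ => e ^ 2) =o[𝓝 0] fun e : ℝ => e := by
        simpa using (Asymptotics.isLittleO_pow_id (𝕜 := ℝ) (by norm_num : 1 < 2))
      simpa using hO.trans_isLittleO ho
    exact h0.unique h1
  by_cases hd : deriv (deriv α) 0 = 0
  · exfalso
    rw [hd, hasDerivAt_iff_isLittleO] at hg
    have hc' : 0 < |c| := abs_pos.2 hc
    have hsmall := hg.def (show (0:ℝ) < |c| / 4 by positivity)
    obtain ⟨δ3, hδ3, hg3⟩ := Metric.eventually_nhds_iff.1 hsmall
    obtain ⟨e, he0, he1⟩ : ∃ e : ℝ, 0 < e ∧ e < min (min δ1 δ2) (min δ3 (|c| / (4 * (|C| + 1)))) := by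
      exact exists_between (by positivity)
    have e1 : e < δ1 := lt_of_lt_of_le he1 ((min_le_left _ _).trans (min_le_left _ _))
    have e2 : e < δ2 := lt_of_lt_of_le he1 ((min_le_left _ _).trans (min_le_right _ _))
    have e3 : e < δ3 := lt_of_lt_of_le he1 ((min_le_right _ _).trans (min_le_left _ _))
    have e4 : e < |c| / (4 * (|C| + 1)) := lt_of_lt_of_le he1 ((min_le_right _ _).trans (min_le_right _ _))
    have hb : ‖α e - α 0‖ ≤ (|c| / 4 * e) * (e - 0) := by
      refine norm_image_sub_le_of_norm_deriv_le_segment' (a := 0) (b := e) (f := α) (f' := deriv α) ?_ ?_ e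
        ⟨he0.le, le_rfl⟩
      · intro x hx
        have : DifferentiableAt ℝ α x := hD (by
          rw [dist_zero_right, Real.norm_eq_abs, abs_of_nonneg hx.1]; exact lt_of_le_of_lt hx.2 e2)
        exact this.hasDerivAt.hasDerivWithinAt
      · intro x hx
        have := hg3 (y := x) (by
          rw [dist_zero_right, Real.norm_eq_abs, abs_of_nonneg hx.1]; exact hx.2.trans e3)
        simp only [hg0, sub_zero, smul_zero] at this
        refine this.trans ?_
        rw [Real.norm_eq_abs, abs_of_nonneg hx.1]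
        exact mul_le_mul_of_nonneg_left hx.2.le (by positivity)
    have hT2 := hT1 (y := e) (by rw [dist_zero_right, Real.norm_eq_abs, abs_of_pos he0]; exact e1)
    rw [abs_of_pos he0] at hT2
    rw [Real.norm_eq_abs] at hb
    have h6 : |c| * e ^ 2 ≤ |α e - α 0| + |α e - α 0 - c * e ^ 2| := by
      have h7 := abs_sub (α e - α 0) (α e - α 0 - c * e ^ 2)
      have h8 : α e - α 0 - (α e - α 0 - c * e ^ 2) = c * e ^ 2 := by ring
      rw [h8, abs_mul, abs_of_pos (by positivity : (0:ℝ) < e ^ 2)] at h7
      exact h7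
    have h9 : C * e ^ 3 ≤ (|c| / 4) * e ^ 2 := by
      have h10 : (|C| + 1) * e ≤ |c| / 4 := by
        have := (lt_div_iff₀ (by positivity)).1 e4
        nlinarith
      have h11 : C * e ≤ |c| / 4 := by
        have : C ≤ |C| + 1 := (le_abs_self C).trans (by linarith)
        nlinarith
      calc C * e ^ 3 = (C * e) * e ^ 2 := by ring
        _ ≤ |c| / 4 * e ^ 2 := mul_le_mul_of_nonneg_right h11 (by positivity)
    have h12 : 0 < |c| * e ^ 2 := by positivity
    nlinarith
  · have := hg.eventually_ne (c := 0) hd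
    exact this

end Pool.Agent.D0H65.BF
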